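import Pool.Agent.Run7.h513.pate.Iface

/-! Pate's inequality (helper513), piece T. -/

set_option autoImplicit false
open scoped ComplexConjugate Nat

namespace Pool.Agent.Run7.h513.Pate

open MvPolynomial Finset

theorem T_W_pos {r : ℕ} (m : Fin r →₀ ℕ) : 0 < W m := by
  unfold W
  exact Finset.prod_pos fun l _ => by exact_mod_cast Nat.factorial_pos _

theorem T_W_one {r : ℕ} (m : Fin r →₀ ℕ) (i : Fin r) :
    W (m + Finsupp.single i 1) = (m i + 1) * W m := by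
  unfold W
  have h : ∀ l, (((m + Finsupp.single i 1 : Fin r →₀ ℕ) l)! : ℝ) =
      (if l = i then ((m i : ℝ) + 1) else 1) * ((m l)! : ℝ) := by
    intro l
    by_cases h : l = i
    · subst h
      simp [Nat.factorial_succ]
    · simp [h, Finsupp.single_apply, Ne.symm h]
  rw [Finset.prod_congr rfl fun l _ => h l, Finset.prod_mul_distrib]
  simp

theorem T_W_two {r : ℕ} (m : Fin r →₀ ℕ) (i : Fin r) :
    W (m + Finsupp.single i 2) = (m i + 1) * (m i + 2) * W m := by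
  have h : m + Finsupp.single i 2 = (m + Finsupp.single i 1) + Finsupp.single i 1 := by
    rw [add_assoc, ← Finsupp.single_add]
  rw [h, T_W_one, T_W_one]
  have h2 : (m + Finsupp.single i 1 : Fin r →₀ ℕ) i = m i + 1 := by simp
  rw [h2]
  push_cast
  ring

theorem T_summ {r : ℕ} (g : (Fin r →₀ ℕ) → ℝ) (Q : MvPolynomial (Fin r) ℂ) :
    Summable fun M => g M * ‖coeff M Q‖ ^ 2 := by
  apply summable_of_ne_finset_zero (s := Q.support)
  intro M hM
  rw [MvPolynomial.notMem_support_iff.1 hM]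
  simp

theorem T_reidx {r : ℕ} (g : (Fin r →₀ ℕ) → ℝ) (P : MvPolynomial (Fin r) ℂ) (s : Fin r →₀ ℕ) :
    ∑' M, g M * ‖coeff M (monomial s 1 * P)‖ ^ 2 = ∑' m, g (m + s) * ‖coeff m P‖ ^ 2 := by
  have h : Function.Injective (fun m : Fin r →₀ ℕ => m + s) := add_left_injective s
  have hs : Function.support (fun M => g M * ‖coeff M (monomial s (1 : ℂ) * P)‖ ^ 2) ⊆
      Set.range (fun m : Fin r →₀ ℕ => m + s) := by
    intro M hM
    by_contra hn
    apply hM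
    have h1 : ¬ s ≤ M := fun hle => hn ⟨M - s, tsub_add_cancel_of_le hle⟩
    simp [coeff_monomial_mul', h1]
  rw [← h.tsum_eq hs]
  refine tsum_congr fun m => ?_
  rw [coeff_monomial_mul']
  simp

theorem T_fi_re {r : ℕ} (Q : MvPolynomial (Fin r) ℂ) :
    (fi Q Q).re = ∑' M, W M * ‖coeff M Q‖ ^ 2 := by
  have h : fi Q Q = ((∑' M, W M * ‖coeff M Q‖ ^ 2 : ℝ) : ℂ) := by
    unfold fi
    rw [Complex.ofReal_tsum]
    refine tsum_congr fun M => ?_
    rw [Complex.conj_mul']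
    push_cast
    ring
  rw [h, Complex.ofReal_re]

theorem T_amgm (p q t : ℝ) (ht : 0 < t) : 2 * (p * q) ≤ t * p ^ 2 + q ^ 2 / t := by
  have h : 0 ≤ (t * p - q) ^ 2 / t := by positivity
  have e : (t * p - q) ^ 2 / t = t * p ^ 2 + q ^ 2 / t - 2 * (p * q) := by
    field_simp
    ring
  linarith

theorem T_pt (x y A B ρ D0 D1 Z : ℝ) (hx : 0 ≤ x) (hy : 0 ≤ y) (hA : 0 ≤ A) (hB : 0 ≤ B)
    (hρ : 0 < ρ) (hD0 : 0 ≤ D0) (hD1 : 0 ≤ D1) (h0 : D0 ≠ 0 → 0 < A) (h1 : D1 ≠ 0 → 0 < B)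
    (hZ : |x * D0 - y * D1| ≤ Z) :
    (x ^ 2 - x * y * (ρ * (B / A))) * D0 ^ 2 + (y ^ 2 - x * y * (A / (ρ * B))) * D1 ^ 2 ≤
      Z ^ 2 := by
  have hZ2 : (x * D0 - y * D1) ^ 2 ≤ Z ^ 2 := by
    rw [← sq_abs (x * D0 - y * D1)]
    exact pow_le_pow_left₀ (abs_nonneg _) hZ 2
  have key : 2 * (D0 * D1) ≤ ρ * (B / A) * D0 ^ 2 + A / (ρ * B) * D1 ^ 2 := by
    by_cases e0 : D0 = 0
    · rw [e0]
      have : 0 ≤ A / (ρ * B) * D1 ^ 2 := by positivity
      nlinarith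
    by_cases e1 : D1 = 0
    · rw [e1]
      have : 0 ≤ ρ * (B / A) * D0 ^ 2 := by positivity
      nlinarith
    have hA' := h0 e0
    have hB' := h1 e1
    have h := T_amgm D0 D1 (ρ * (B / A)) (by positivity)
    have e : D1 ^ 2 / (ρ * (B / A)) = A / (ρ * B) * D1 ^ 2 := by
      field_simp
    rw [e] at h
    exact h
  have hxy : 0 ≤ x * y := mul_nonneg hx hy
  have := mul_le_mul_of_nonneg_left key hxy
  nlinarith

theorem t_T : PieceS → PieceT := by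
  intro hS r P α β
  set x : ℝ := ‖α‖ ^ 2 with hx
  set y : ℝ := ‖β‖ ^ 2 with hy
  have hx0 : 0 ≤ x := by positivity
  have hy0 : 0 ≤ y := by positivity
  -- the function ρ
  have hρ : ∃ ρ : ℝ → ℝ, (∀ N, 0 < ρ N) ∧ ∀ N, 2 ≤ N → ∀ a b : ℝ, 0 ≤ a → 0 ≤ b →
      a + b + 2 = N → 2 * (x * y) * N ≤ x ^ 2 * ((a + 1) * (a + 2)) +
        y ^ 2 * ((b + 1) * (b + 2)) - x * y * ρ N * ((a + 1) * b) -
        x * y / ρ N * ((b + 1) * a) := by
    have h : ∀ N : ℝ, ∃ ρ : ℝ, 0 < ρ ∧ (2 ≤ N → ∀ a b : ℝ, 0 ≤ a → 0 ≤ b →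
      a + b + 2 = N → 2 * (x * y) * N ≤ x ^ 2 * ((a + 1) * (a + 2)) +
        y ^ 2 * ((b + 1) * (b + 2)) - x * y * ρ * ((a + 1) * b) -
        x * y / ρ * ((b + 1) * a)) := by
      intro N
      by_cases hN : 2 ≤ N
      · obtain ⟨ρ, h1, h2⟩ := hS x y N hx0 hy0 hN
        exact ⟨ρ, h1, fun _ => h2⟩
      · exact ⟨1, one_pos, fun h => absurd h hN⟩
    choose ρ h1 h2 using h
    exact ⟨ρ, h1, h2⟩
  obtain ⟨ρ, hρ0, hρ1⟩ := hρ
  have hX : ∀ i : Fin (r + 2), (X i : MvPolynomial (Fin (r + 2)) ℂ) =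
      monomial (Finsupp.single i 1) 1 := fun i => by
    rw [← X_pow_eq_monomial, pow_one]
  have hE : ∀ i : Fin (r + 2), (fi (X i * P) (X i * P)).re =
      ∑' m, (((m i : ℕ) + 1 : ℝ) * W m) * ‖coeff m P‖ ^ 2 := by
    intro i
    rw [T_fi_re, hX, T_reidx]
    refine tsum_congr fun m => ?_
    rw [T_W_one]
  set q : MvPolynomial (Fin (r + 2)) ℂ := C (α ^ 2) * X 0 ^ 2 - C (β ^ 2) * X 1 ^ 2 with hq
  set U : MvPolynomial (Fin (r + 2)) ℂ := monomial (Finsupp.single 0 2) 1 * P with hU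
  set V : MvPolynomial (Fin (r + 2)) ℂ := monomial (Finsupp.single 1 2) 1 * P with hV
  have hco : ∀ M, coeff M (q * P) = α ^ 2 * coeff M U - β ^ 2 * coeff M V := by
    intro M
    have e : q * P = C (α ^ 2) * U - C (β ^ 2) * V := by
      rw [hq, hU, hV, ← X_pow_eq_monomial, ← X_pow_eq_monomial]
      ring
    rw [e, coeff_sub, coeff_C_mul, coeff_C_mul]
  set G0 : (Fin (r + 2) →₀ ℕ) → ℝ := fun M =>
    W M * (x ^ 2 - x * y * (ρ ((M 0 : ℝ) + M 1) * ((M 1 : ℝ) / M 0))) with hG0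
  set G1 : (Fin (r + 2) →₀ ℕ) → ℝ := fun M =>
    W M * (y ^ 2 - x * y * ((M 0 : ℝ) / (ρ ((M 0 : ℝ) + M 1) * (M 1 : ℝ)))) with hG1
  have hpt : ∀ M, G0 M * ‖coeff M U‖ ^ 2 + G1 M * ‖coeff M V‖ ^ 2 ≤
      W M * ‖coeff M (q * P)‖ ^ 2 := by
    intro M
    have hUz : ‖coeff M U‖ ≠ 0 → (0 : ℝ) < M 0 := by
      intro h
      by_contra hn
      apply h
      have h0 : ¬ Finsupp.single (0 : Fin (r + 2)) 2 ≤ M := by
        intro hle
        have := hle 0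
        simp at this
        apply hn
        exact_mod_cast (by omega : 0 < M 0)
      rw [hU, coeff_monomial_mul', if_neg h0, norm_zero]
    have hVz : ‖coeff M V‖ ≠ 0 → (0 : ℝ) < M 1 := by
      intro h
      by_contra hn
      apply h
      have h0 : ¬ Finsupp.single (1 : Fin (r + 2)) 2 ≤ M := by
        intro hle
        have := hle 1
        simp at this
        apply hn
        exact_mod_cast (by omega : 0 < M 1)
      rw [hV, coeff_monomial_mul', if_neg h0, norm_zero]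
    have hZ : |x * ‖coeff M U‖ - y * ‖coeff M V‖| ≤ ‖coeff M (q * P)‖ := by
      rw [hco]
      have := abs_norm_sub_norm_le (α ^ 2 * coeff M U) (β ^ 2 * coeff M V)
      rwa [norm_mul, norm_mul, norm_pow, norm_pow] at this
    have h := T_pt x y (M 0) (M 1) (ρ ((M 0 : ℝ) + M 1)) ‖coeff M U‖ ‖coeff M V‖
      ‖coeff M (q * P)‖ hx0 hy0 (Nat.cast_nonneg _) (Nat.cast_nonneg _) (hρ0 _) (norm_nonneg _)
      (norm_nonneg _) hUz hVz hZ
    have := mul_le_mul_of_nonneg_left h (T_W_pos M).le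
    calc G0 M * ‖coeff M U‖ ^ 2 + G1 M * ‖coeff M V‖ ^ 2
        = W M * ((x ^ 2 - x * y * (ρ ((M 0 : ℝ) + M 1) * ((M 1 : ℝ) / M 0))) *
            ‖coeff M U‖ ^ 2 + (y ^ 2 - x * y * ((M 0 : ℝ) / (ρ ((M 0 : ℝ) + M 1) * (M 1 : ℝ)))) *
            ‖coeff M V‖ ^ 2) := by
          rw [hG0, hG1]
          ring
      _ ≤ _ := this
  have s1 : Summable fun M => G0 M * ‖coeff M U‖ ^ 2 := T_summ G0 U
  have s2 : Summable fun M => G1 M * ‖coeff M V‖ ^ 2 := T_summ G1 V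
  have s3 : Summable fun M => W M * ‖coeff M (q * P)‖ ^ 2 := T_summ W (q * P)
  have b1 : ∑' M, G0 M * ‖coeff M U‖ ^ 2 =
      ∑' m, G0 (m + Finsupp.single 0 2) * ‖coeff m P‖ ^ 2 := T_reidx G0 P _
  have b2 : ∑' M, G1 M * ‖coeff M V‖ ^ 2 =
      ∑' m, G1 (m + Finsupp.single 1 2) * ‖coeff m P‖ ^ 2 := T_reidx G1 P _
  have s4 : Summable fun m => G0 (m + Finsupp.single 0 2) * ‖coeff m P‖ ^ 2 :=
    T_summ (fun m => G0 (m + Finsupp.single 0 2)) P
  have s5 : Summable fun m => G1 (m + Finsupp.single 1 2) * ‖coeff m P‖ ^ 2 :=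
    T_summ (fun m => G1 (m + Finsupp.single 1 2)) P
  have hlow : ∑' m, (G0 (m + Finsupp.single 0 2) * ‖coeff m P‖ ^ 2 +
      G1 (m + Finsupp.single 1 2) * ‖coeff m P‖ ^ 2) ≤ (fi (q * P) (q * P)).re := by
    rw [T_fi_re, s4.tsum_add s5, ← b1, ← b2, ← s1.tsum_add s2]
    exact (s1.add s2).tsum_le_tsum hpt s3
  have h01 : (0 : Fin (r + 2)) ≠ 1 := by simp
  have hterm : ∀ m : Fin (r + 2) →₀ ℕ,
      2 * (x * y) * (((m 0 : ℕ) + 1 : ℝ) * W m * ‖coeff m P‖ ^ 2 +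
        ((m 1 : ℕ) + 1 : ℝ) * W m * ‖coeff m P‖ ^ 2) ≤
      G0 (m + Finsupp.single 0 2) * ‖coeff m P‖ ^ 2 +
      G1 (m + Finsupp.single 1 2) * ‖coeff m P‖ ^ 2 := by
    intro m
    have e00 : (m + Finsupp.single 0 2 : Fin (r + 2) →₀ ℕ) 0 = m 0 + 2 := by simp
    have e01 : (m + Finsupp.single 0 2 : Fin (r + 2) →₀ ℕ) 1 = m 1 := by
      simp [Finsupp.single_apply]
    have e10 : (m + Finsupp.single 1 2 : Fin (r + 2) →₀ ℕ) 0 = m 0 := by
      simp [Finsupp.single_apply]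
    have e11 : (m + Finsupp.single 1 2 : Fin (r + 2) →₀ ℕ) 1 = m 1 + 2 := by simp
    have ha : (0 : ℝ) ≤ m 0 := Nat.cast_nonneg _
    have hb : (0 : ℝ) ≤ m 1 := Nat.cast_nonneg _
    set a : ℝ := (m 0 : ℝ) with hadef
    set b : ℝ := (m 1 : ℝ) with hbdef
    set N : ℝ := a + b + 2 with hN
    have h := hρ1 N (by linarith) a b ha hb rfl
    have g0 : G0 (m + Finsupp.single 0 2) = W m * (x ^ 2 * ((a + 1) * (a + 2)) -
        x * y * ρ N * ((a + 1) * b)) := by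
      simp only [hG0, e00, e01, T_W_two]
      push_cast
      rw [← hadef, ← hbdef, show a + 2 + b = N by rw [hN]; ring]
      have : a + 2 ≠ 0 := by positivity
      field_simp
    have g1 : G1 (m + Finsupp.single 1 2) = W m * (y ^ 2 * ((b + 1) * (b + 2)) -
        x * y / ρ N * ((b + 1) * a)) := by
      simp only [hG1, e10, e11, T_W_two]
      push_cast
      rw [← hadef, ← hbdef, show a + (b + 2) = N by rw [hN]; ring]
      have : b + 2 ≠ 0 := by positivity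
      have : ρ N ≠ 0 := (hρ0 N).ne'
      field_simp
    rw [g0, g1]
    have hw : 0 ≤ W m * ‖coeff m P‖ ^ 2 := mul_nonneg (T_W_pos m).le (by positivity)
    have := mul_le_mul_of_nonneg_left h hw
    rw [hN] at this ⊢
    nlinarith [this]
  have s6 : Summable fun m : Fin (r + 2) →₀ ℕ =>
      ((m 0 : ℕ) + 1 : ℝ) * W m * ‖coeff m P‖ ^ 2 :=
    T_summ (fun m => ((m 0 : ℕ) + 1 : ℝ) * W m) P
  have s7 : Summable fun m : Fin (r + 2) →₀ ℕ =>
      ((m 1 : ℕ) + 1 : ℝ) * W m * ‖coeff m P‖ ^ 2 :=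
    T_summ (fun m => ((m 1 : ℕ) + 1 : ℝ) * W m) P
  have hfin : 2 * (x * y) * ((fi (X 0 * P) (X 0 * P)).re + (fi (X 1 * P) (X 1 * P)).re) ≤
      (fi (q * P) (q * P)).re := by
    refine le_trans ?_ hlow
    rw [hE 0, hE 1, ← s6.tsum_add s7, ← tsum_mul_left]
    exact ((s6.add s7).mul_left _).tsum_le_tsum hterm (s4.add s5)
  linarith

end Pool.Agent.Run7.h513.Pate
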